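import Mathlib
import Pool.Agent.Lib.helper22.DG
import Pool.Agent.H.MP_215185_al.B

namespace Pool.Agent.Results.MP_215185_al.NotRes

open CategoryTheory unitInterval Pool.Agent.Lib.DG Pool.Agent.H.MP_215185_al
open scoped commutatorElement

def R₀ : Set (List Unit × List Unit) := {([()], [(), ()]), ([()], [(), (), ()])}

def E (i k n m : ℕ) (h : i ≤ n ∧ m = n + k ∧ (k = 1 ∨ k = 2)) : ob R₀ ⟨.replicate (n + 1) ()⟩ ⟶ ob R₀ ⟨.replicate (m + 1) ()⟩ :=
  ed ⟨(.replicate i (), ([()], .replicate (k + 1) ()), .replicate (n - i) ()), by rcases h.2.2 with rfl | rfl <;> simp [R₀],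
    List.ext_getElem (by simp; omega) (by simp), List.ext_getElem (by simp; omega) (by simp)⟩

def γ : ∀ n, ob R₀ ⟨[()]⟩ ⟶ ob R₀ ⟨.replicate (n + 1) ()⟩
  | 0 => 𝟙 _
  | n + 1 => γ n ≫ E n 1 n (n + 1) (by simp)

noncomputable def Q (i k n m : ℕ) : D R₀ [()] :=
  if h : i ≤ n ∧ m = n + k ∧ (k = 1 ∨ k = 2) then γ n ≫ E i k n m h ≫ inv (γ m) else 1

theorem q_sq {i j k l n : ℕ} (h : i < j) (h' : j ≤ n) (hk : k = 1 ∨ k = 2) (hl : l = 1 ∨ l = 2) :
    Q (j + k) l (n + k) (n + k + l) * Q i k n (n + k) = Q i k (n + l) (n + l + k) * Q j l n (n + l) := by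
  rw [add_right_comm n l k, Q, Q, Q, Q, dif_pos ⟨by omega, rfl, hl⟩, dif_pos ⟨by omega, rfl, hk⟩, dif_pos ⟨by omega, by omega, hk⟩, dif_pos ⟨h', rfl, hl⟩]
  simp only [End.mul_def, Category.assoc, IsIso.inv_hom_id_assoc]
  rw [cancel_epi, ← Category.assoc, ← Category.assoc, cancel_mono]
  refine sq _ _ _ _ (.replicate i ()) (.replicate (j - i - 1) ()) (.replicate (n - j) ()) ([()], .replicate (k + 1) ()) ([()], .replicate (l + 1) ())
    ?_ ?_ ?_ ?_ <;> simp only [Prod.mk.injEq, true_and, and_true] <;> (try constructor) <;> exact List.ext_getElem (by simp <;> omega) (by simp)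

noncomputable def A (i k : ℕ) : D R₀ [()] := Q i k (i + 1) (i + 1 + k)

theorem a_sq {i j k l : ℕ} (h : i < j) (hk : k = 1 ∨ k = 2) (hl : l = 1 ∨ l = 2) : A (j + k) l * A i k = A i k * A j l := by
  have e : ∀ n, Q n 1 n (n + 1) = 1 := fun n => by rw [Q, dif_pos (by simp), ← Category.assoc]; exact IsIso.hom_inv_id (γ (n + 1))
  have : ∀ i n k, i < n → k = 1 ∨ k = 2 → Q i k n (n + k) = A i k := fun i n k h hk => by
    induction n, h using Nat.le_induction with
    | base => rfl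
    | succ n h ih => simpa [e, ih] using (q_sq h le_rfl hk (.inl rfl)).symm
  have t := q_sq h (n := j + 1) (by omega) hk hl
  rwa [this _ _ _ (by omega) hl, this _ _ _ (by omega) hk, this _ _ _ (by omega) hk, this _ _ _ (by omega) hl] at t

theorem rep : ∃ Φ : D R₀ [()] →* Equiv.Perm (ℕ × ℕ), ∀ i k, k = 1 ∨ k = 2 → Φ (A i k) = s i k := by
  obtain ⟨Φ, h⟩ := lift (R := R₀) (fun e => if e.2.2 = [] then 1 else s e.1.length (e.2.1.2.length - 1)) fun a b c r i r' j => by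
    rcases i with rfl | rfl <;> rcases j with rfl | rfl <;> by_cases d : c = [] <;> simp [d] <;> exact s_sq _ (a.length + (b.length + 1)) _ _ (by omega)
  have g : ∀ n, Φ.map (γ n) = (1 : Equiv.Perm (ℕ × ℕ)) := fun n => by
    induction n with
    | zero => exact Φ.map_id _
    | succ n ih => simp [γ, E, h, ih, SingleObj.comp_as_mul]; exact one_mul (1 : Equiv.Perm (ℕ × ℕ))
  refine ⟨Φ.mapEnd _, fun i k hk => ?_⟩
  rw [A, Q, dif_pos ⟨by omega, rfl, hk⟩]
  refine (Φ.map_comp _ _).trans ?_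
  simp [E, h, g, SingleObj.comp_as_mul, SingleObj.inv_as_inv]
  exact (mul_one (_ * s i k)).trans (one_mul (s i k))

theorem result : ∃ (S : Type) (R : Set (List S × List S)) (w : List S), (∀ r ∈ R, r.1 ≠ [] ∧ r.2 ≠ []) ∧ w ≠ [] ∧
    ∃ g : D R w, g ≠ 1 ∧ ∀ φ : D R w →* (I ≃o I), (∀ d, PL (φ d)) → φ g = 1 :=
  ⟨Unit, R₀, [()], by simp [R₀], by simp, rep.elim (main (G := D R₀ [()]) a_sq)⟩

end Pool.Agent.Results.MP_215185_al.NotRes
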